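import Pool.Agent.Lib.H60.UDef.Criterion
import Pool.Agent.Lib.H42.QuadFamily

set_option autoImplicit false

namespace Pool.Agent.Lib.Retired12fa5c.CongruentNumberFields

/-- A rational number is congruent if it is the area of a right triangle with rational sides. -/
def IsCongruent (n : ℚ) : Prop :=
  ∃ a b c : ℚ, 0 < a ∧ 0 < b ∧ 0 < c ∧ a ^ 2 + b ^ 2 = c ^ 2 ∧ a * b / 2 = n

/-- `X` is defined in `K` by a universal formula of the language of rings (no parameters). -/
def UnivDef (K : Type) [Field K] [FirstOrder.Ring.CompatibleRing K] (X : K → Prop) : Prop :=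
  ∃ φ : FirstOrder.Language.ring.Formula (Fin 1),
    FirstOrder.Language.BoundedFormula.IsUniversal φ ∧
      ∀ a : K, φ.Realize (fun _ : Fin 1 => a) ↔ X a

/-- Let `K = ℚ(√d)` be a quadratic field, real or imaginary, such that `|d| D` is a congruent number
for some positive rational `D` that is not congruent, for example `D = 1` or `D = 2`. Then `ℚ` is
universally definable in `K`, and so is `ℤ` provided the ring of integers of `K` is (Park's
theorem). -/
theorem result (K : Type) [Field K] [NumberField K] [FirstOrder.Ring.CompatibleRing K]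
    (hK : Module.finrank ℚ K = 2) (d : ℚ) (hd : ¬ IsSquare d) (δ : K) (hδ : δ ^ 2 = (d : K))
    (D : ℚ) (hD : 0 < D) (hDn : D = 1 ∨ D = 2 ∨ ¬ IsCongruent D) (hdD : IsCongruent (|d| * D)) :
    UnivDef K (fun a => ∃ q : ℚ, (q : K) = a) ∧
      (UnivDef K (fun a => IsIntegral ℤ a) → UnivDef K (fun a => ∃ n : ℤ, (n : K) = a)) := by
  have hd0 : d ≠ 0 := by
    rintro rfl
    exact hd ⟨0, by norm_num⟩
  have hDn' : ¬ H42.IsCongruent D := by
    rcases hDn with rfl | rfl | h
    · exact H42.not_isCongruent_one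
    · exact H42.not_isCongruent_two
    · exact h
  have hδQ : ¬ ∃ q : ℚ, (q : K) = δ := by
    rintro ⟨q, hq⟩
    apply hd
    refine ⟨q, ?_⟩
    have : ((q * q : ℚ) : K) = (d : K) := by
      push_cast
      rw [hq, ← hδ, pow_two]
    exact_mod_cast this.symm
  obtain ⟨-, x₀, y₀, hy₀, h3⟩ := (H42.isCongruent_iff _).1 hdD
  have hRS : H60.UDef.RankStable ℚ K := by
    refine H42.quad_rankStable K hK d δ hδ hδQ D hd0 hD.ne' ?_ x₀ y₀ hy₀ ?_
    · intro x y h
      by_contra hy
      exact hDn' ((H42.isCongruent_iff _).2 ⟨hD, x, y, hy, h⟩)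
    · rw [h3, mul_pow, mul_pow, sq_abs]
  refine H60.UDef.criterion K K fun x hx => ?_
  obtain ⟨c, hc⟩ := hx ℚ hRS
  exact ⟨c, by simpa using hc⟩

end Pool.Agent.Lib.Retired12fa5c.CongruentNumberFields
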