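import Pool.Agent.Lib.H60.UDef.Criterion
import Pool.Agent.Lib.H42.Cub.Final

set_option autoImplicit false

namespace Pool.Agent.Lib.Retired12fa5c.CyclicCubicFields

/-- `X` is defined in `K` by a universal formula of the language of rings (no parameters). -/
def UnivDef (K : Type) [Field K] [FirstOrder.Ring.CompatibleRing K] (X : K → Prop) : Prop :=
  ∃ φ : FirstOrder.Language.ring.Formula (Fin 1),
    FirstOrder.Language.BoundedFormula.IsUniversal φ ∧
      ∀ a : K, φ.Realize (fun _ : Fin 1 => a) ↔ X a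

/-- Let `K` be a cyclic cubic field whose conductor is `p` or `9 p`, `p ≠ 3` prime: `K` is generated
by a root of `x³ - 3 p x - p T`, where `4 p = T² + 3 b²` (the conductor is `p` if `3` divides `b`, and
`9 p` otherwise). Suppose that `9` does not divide `b` and, if `p ≡ 1` modulo `9`, that `3` does not
divide `b` and `T` is not congruent to `b` or `-b` modulo `9`. Then `ℚ` is universally definable in
`K`, and so is `ℤ` provided the ring of integers of `K` is (Park's theorem). -/
theorem result (K : Type) [Field K] [NumberField K] [FirstOrder.Ring.CompatibleRing K]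
    (hK : Module.finrank ℚ K = 3) (p : ℕ) (hp : p.Prime) (hp3 : p ≠ 3) (T b : ℤ)
    (hTb : 4 * (p : ℤ) = T ^ 2 + 3 * b ^ 2) (h9 : ¬ (9 : ℤ) ∣ b)
    (h1 : p % 9 = 1 → ¬ (3 : ℤ) ∣ b ∧ ¬ (9 : ℤ) ∣ T - b ∧ ¬ (9 : ℤ) ∣ T + b)
    (r : K) (hr : r ^ 3 = 3 * p * r + p * T) :
    UnivDef K (fun a => ∃ q : ℚ, (q : K) = a) ∧
      (UnivDef K (fun a => IsIntegral ℤ a) → UnivDef K (fun a => ∃ n : ℤ, (n : K) = a)) := by
  obtain ⟨L, _, _, _, _, hRS, hq⟩ :=
    H42.Cub.exists_rankStable K hK p hp hp3 T b hTb h9 h1 r hr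
  refine H60.UDef.criterion K L fun x hx => ?_
  obtain ⟨c, hc⟩ := hx H42.Cub.F3 hRS
  exact hq x c hc

end Pool.Agent.Lib.Retired12fa5c.CyclicCubicFields
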