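import Pool.Agent.Lib.H60.UDef.Criterion

set_option autoImplicit false

namespace Pool.Agent.Lib.Retired12fa5c.RankStableSubfields

open WeierstrassCurve WeierstrassCurve.Affine

/-- The Weierstrass curve `y² = x³ + a x + b`. -/
def shortW {F : Type} [Field F] (a b : F) : WeierstrassCurve F := ⟨0, 0, 0, a, b⟩

open scoped Classical in
/-- There is an elliptic curve `E : y² = x³ + a x + b` over `F` with a point of infinite order in
`E(F)` and an `m > 0` such that `m P` comes from `E(F)` for all `P` in `E(K)`. By the Mordell-Weil
theorem the last condition says that the ranks of `E(F)` and `E(K)` are equal, if `K` is a number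
field. -/
def RankStable (F K : Type) [Field F] [Field K] [Algebra F K] : Prop :=
  ∃ a b : F, 4 * a ^ 3 + 27 * b ^ 2 ≠ 0 ∧
    (∃ P : ((shortW a b)⁄F).Point, ∀ n : ℕ, 0 < n → n • P ≠ 0) ∧
    ∃ m : ℕ, 0 < m ∧ ∀ P : ((shortW a b)⁄K).Point, ∃ Q : ((shortW a b)⁄F).Point,
      m • P = Point.baseChange F K Q

/-- `X` is defined in `K` by a universal formula of the language of rings (no parameters). -/
def UnivDef (K : Type) [Field K] [FirstOrder.Ring.CompatibleRing K] (X : K → Prop) : Prop :=
  ∃ φ : FirstOrder.Language.ring.Formula (Fin 1),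
    FirstOrder.Language.BoundedFormula.IsUniversal φ ∧
      ∀ a : K, φ.Realize (fun _ : Fin 1 => a) ↔ X a

/-- Let `L / K` be an extension of number fields such that every element of `K` that lies in all
subfields `F` of `L` for which `L / F` is rank-stable is rational. Then `ℚ` is universally definable
in `K`, and so is `ℤ` provided the ring of integers of `K` is (Park's theorem). -/
theorem result (K L : Type) [Field K] [NumberField K] [Field L] [NumberField L] [Algebra K L]
    [FirstOrder.Ring.CompatibleRing K]
    (h : ∀ x : K, (∀ (F : Type) [Field F] [Algebra F L], RankStable F L →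
      ∃ c : F, algebraMap F L c = algebraMap K L x) → ∃ q : ℚ, (q : K) = x) :
    UnivDef K (fun a => ∃ q : ℚ, (q : K) = a) ∧
      (UnivDef K (fun a => IsIntegral ℤ a) → UnivDef K (fun a => ∃ n : ℤ, (n : K) = a)) :=
  Pool.Agent.H60.UDef.criterion K L h

end Pool.Agent.Lib.Retired12fa5c.RankStableSubfields
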