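import Pool.Agent.Lib.H57U.F1

set_option autoImplicit false

namespace Pool.Agent.Lib.Retired12fa5c.SmallRank

open WeierstrassCurve WeierstrassCurve.Affine

/-- The Weierstrass curve `y² = x³ + a x + b`. -/
def shortW {F : Type} [Field F] (a b : F) : WeierstrassCurve F := ⟨0, 0, 0, a, b⟩

open scoped Classical in
/-- There is an elliptic curve `E : y² = x³ + a x + b` over `L` with a point of infinite order in
`E(L)`, an `m > 0` and `r` points of `E(L)` that generate a group containing `m E(L)`. By the
Mordell-Weil theorem this says `1 ≤ rank E(L) ≤ r`, if `L` is a number field. -/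
def SmallRank (L : Type) [Field L] (r : ℕ) : Prop :=
  ∃ a b : L, 4 * a ^ 3 + 27 * b ^ 2 ≠ 0 ∧
    (∃ P : ((shortW a b)⁄L).Point, ∀ n : ℕ, 0 < n → n • P ≠ 0) ∧
    ∃ m : ℕ, 0 < m ∧ ∃ G : Fin r → ((shortW a b)⁄L).Point,
      ∀ P : ((shortW a b)⁄L).Point, ∃ k : Fin r → ℤ, m • P = ∑ j, k j • G j

/-- `X` is defined in `K` by a universal formula of the language of rings (no parameters). -/
def UnivDef (K : Type) [Field K] [FirstOrder.Ring.CompatibleRing K] (X : K → Prop) : Prop :=
  ∃ φ : FirstOrder.Language.ring.Formula (Fin 1),
    FirstOrder.Language.BoundedFormula.IsUniversal φ ∧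
      ∀ a : K, φ.Realize (fun _ : Fin 1 => a) ↔ X a

/-- Let `K` be a number field such that for every `x` in `K` that is not rational there are a finite
extension `L` of `K` and an elliptic curve over `L` of rank at least `1` and less than the degree of
`x` over `ℚ`; for instance, such that some finite extension of `K` has an elliptic curve of rank
one. Then `ℚ` is universally definable in `K`, and so is `ℤ` provided the ring of integers of `K`
is (Park's theorem). -/
theorem result (K : Type) [Field K] [NumberField K] [FirstOrder.Ring.CompatibleRing K]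
    (h : ∀ x : K, (¬ ∃ q : ℚ, (q : K) = x) → ∃ (L : Type) (_ : Field L) (_ : NumberField L)
      (_ : Algebra K L) (r : ℕ), r < (minpoly ℚ x).natDegree ∧ SmallRank L r) :
    UnivDef K (fun a => ∃ q : ℚ, (q : K) = a) ∧
      (UnivDef K (fun a => IsIntegral ℤ a) → UnivDef K (fun a => ∃ n : ℤ, (n : K) = a)) :=
  Pool.Agent.H57U.small_rank K h

end Pool.Agent.Lib.Retired12fa5c.SmallRank
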